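import Pool.Agent.H92HW.Defs
import Pool.Agent.H92HW.Proof

/-!
# Howitt-Warren flows: no Tracy-Widom limit beyond the maximal speed
-/

set_option autoImplicit false

open MeasureTheory ProbabilityTheory Filter Topology
open scoped NNReal ENNReal
open Pool.Agent.H92HW

/-- (1) Let `ν` be a finite measure on `[0,1]` with `∫ ν(dq)/q < ∞`, and let
`x > β + 2 ∫ ν(dq)/q`.  For every Howitt-Warren flow `K` with drift `β` and characteristic measure
`ν`, no normalisation `(-log K_{0,t}(0,[tx,tx+1]) - a(t)) / b(t)` converges in distribution, as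
`t → ∞`, to a real random variable.  (2) Hence there are `β`, `ν` with `ν((0,1)) > 0` and `x ≠ β`
for which no constants `c` and `σ ≠ 0` make
`(-log K_{0,t}(0,[tx,tx+1]) - c t) / (σ t^{1/3})` converge in distribution to any real random
variable, in particular to one with the Tracy-Widom GUE law. -/
theorem Pool.Agent.Results.MP_b213bc_pr.BeyondTheCone.result :
    (∀ (β : ℝ) (ν : Measure unitInterval) [IsFiniteMeasure ν],
      ∫⁻ q : unitInterval, (ENNReal.ofReal (q : ℝ))⁻¹ ∂ν ≠ ∞ →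
      ∀ x : ℝ, β + 2 * (∫⁻ q : unitInterval, (ENNReal.ofReal (q : ℝ))⁻¹ ∂ν).toReal < x →
      ∀ (Ω : Type) [MeasurableSpace Ω] (P : Measure Ω) [IsProbabilityMeasure P]
        (K : ℝ → ℝ → Kernel (Ω × ℝ) ℝ), IsHowittWarrenFlow β ν P K →
      ∀ a b : ℝ → ℝ, (∀ t, 0 < t → b t ≠ 0) →
      ∀ (Ω₀ : Type) [MeasurableSpace Ω₀] (P₀ : Measure Ω₀) [IsProbabilityMeasure P₀]
        (Z : Ω₀ → ℝ),
      ¬ TendstoInDistribution
        (fun (t : ℝ) ω => (negLog K x t ω - (a t : EReal)) / (b t : EReal))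
        atTop (fun ω => (Z ω : EReal)) (fun _ => P) P₀) ∧
    (∃ (β : ℝ) (ν : Measure unitInterval) (x : ℝ), IsFiniteMeasure ν ∧
      0 < ν (Set.Ioo 0 1) ∧ x ≠ β ∧
      ∀ (Ω : Type) [MeasurableSpace Ω] (P : Measure Ω) [IsProbabilityMeasure P]
        (K : ℝ → ℝ → Kernel (Ω × ℝ) ℝ), IsHowittWarrenFlow β ν P K →
      ∀ c σ : ℝ, σ ≠ 0 →
      ∀ (Ω₀ : Type) [MeasurableSpace Ω₀] (P₀ : Measure Ω₀) [IsProbabilityMeasure P₀]
        (Z : Ω₀ → ℝ),
      ¬ TendstoInDistribution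
        (fun (t : ℝ) ω => (negLog K x t ω - ((c * t : ℝ) : EReal)) /
          ((σ * t ^ ((1 : ℝ) / 3) : ℝ) : EReal))
        atTop (fun ω => (Z ω : EReal)) (fun _ => P) P₀) := by
  refine ⟨?_, ?_⟩
  · intro β ν _ hν x hx Ω _ P _ K hK a b hb Ω₀ _ P₀ _ Z
    exact no_limit hν hK hx a b hb P₀ Z
  · have hhalf : (1 / 2 : ℝ) ∈ Set.Icc (0 : ℝ) 1 := by constructor <;> norm_num
    set q0 : unitInterval := ⟨1 / 2, hhalf⟩ with hq0
    have hI : ∫⁻ q : unitInterval, (ENNReal.ofReal (q : ℝ))⁻¹ ∂(Measure.dirac q0)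
        = (ENNReal.ofReal (1 / 2))⁻¹ := by
      rw [lintegral_dirac]
    have hne : (ENNReal.ofReal (1 / 2))⁻¹ ≠ ∞ := by
      rw [ENNReal.inv_ne_top]
      simp
    have htr : ((ENNReal.ofReal (1 / 2))⁻¹).toReal = 2 := by
      rw [ENNReal.toReal_inv, ENNReal.toReal_ofReal (by norm_num)]
      norm_num
    refine ⟨0, Measure.dirac q0, 5, inferInstance, ?_, by norm_num, ?_⟩
    · rw [Measure.dirac_apply' _ measurableSet_Ioo, Set.indicator_of_mem]
      · simp
      · constructor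
        · change (0 : ℝ) < 1 / 2
          norm_num
        · change (1 / 2 : ℝ) < 1
          norm_num
    · intro Ω _ P _ K hK c σ hσ Ω₀ _ P₀ _ Z
      refine no_limit (by rw [hI]; exact hne) hK (by rw [hI, htr]; norm_num)
        (fun t => c * t) (fun t => σ * t ^ ((1 : ℝ) / 3)) (fun t ht => ?_) P₀ Z
      exact mul_ne_zero hσ (Real.rpow_pos_of_pos ht _).ne'
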